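import Pool.Agent.Helper12_Tower.Multi

set_option autoImplicit false

/-! Polynomials that are not proper powers, and uniqueness of `a F^e + B`. -/

namespace Pool.Agent.Helper12_Tower

open MvPolynomial

variable {σ k : Type} [Field k]

/-- Not constant, and not a constant times a proper power. -/
def Atom (F : MvPolynomial σ k) : Prop :=
  1 ≤ F.totalDegree ∧ ∀ (c : k) (W : MvPolynomial σ k) (n : ℕ), F = C c * W ^ n → n = 1

theorem tdeg_pow {a : k} (ha : a ≠ 0) (F : MvPolynomial σ k) (e : ℕ) :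
    (C a * F ^ e).totalDegree = e * F.totalDegree := by
  rw [← natDegree_line, map_mul, map_pow, line_C,
    Polynomial.natDegree_C_mul ((map_ne_zero _).2 ha), Polynomial.natDegree_pow, natDegree_line]

theorem tdeg_C_mul {a : k} (ha : a ≠ 0) (F : MvPolynomial σ k) :
    (C a * F).totalDegree = F.totalDegree := by
  rw [← natDegree_line, map_mul, line_C,
    Polynomial.natDegree_C_mul ((map_ne_zero _).2 ha), natDegree_line]

theorem ne_zero_of_tdeg {F : MvPolynomial σ k} (h : 1 ≤ F.totalDegree) : F ≠ 0 := by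
  rintro rfl; simp at h

theorem tdeg_gate {F B : MvPolynomial σ k} {a : k} {e : ℕ} (ha : a ≠ 0)
    (he : 2 ≤ e) (hF : 1 ≤ F.totalDegree) (hB : 6 * B.totalDegree ≤ e * F.totalDegree) :
    (C a * F ^ e + B).totalDegree = e * F.totalDegree := by
  have h1 := tdeg_pow ha F e
  have h2 : 2 ≤ e * F.totalDegree := by nlinarith
  rw [totalDegree_add_eq_left_of_totalDegree_lt, h1]
  rw [h1]; omega

/-- Uniqueness of the splitting into a power and a small remainder. -/
theorem split [CharZero k] {F F' B B' : MvPolynomial σ k} {a a' γ : k} {e e' : ℕ} (ha : a ≠ 0)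
    (ha' : a' ≠ 0) (hγ : γ ≠ 0) (he : 2 ≤ e) (he' : 2 ≤ e') (hF : 1 ≤ F.totalDegree)
    (hF' : 1 ≤ F'.totalDegree) (hB : 6 * B.totalDegree ≤ e * F.totalDegree)
    (hB' : 6 * B'.totalDegree ≤ e' * F'.totalDegree)
    (h : C a * F ^ e + B = C γ * (C a' * F' ^ e' + B')) :
    C a * F ^ e = C (γ * a') * F' ^ e' ∧ B = C γ * B' := by
  have hd : e * F.totalDegree = e' * F'.totalDegree := by
    rw [← tdeg_gate ha he hF hB, h, tdeg_C_mul hγ, tdeg_gate ha' he' hF' hB']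
  have hR : B - C γ * B' = 0 := by
    refine rigid (W := F') (F := F) (c := γ * a') (a := a) (α := e') (e := e)
      (mul_ne_zero hγ ha') ha he' he (ne_zero_of_tdeg hF') (ne_zero_of_tdeg hF) ?_ ?_ ?_
    · rw [C_mul]; linear_combination -h
    · rw [tdeg_pow ha]; nlinarith
    · rw [tdeg_pow ha]
      have h1 := totalDegree_sub B (C γ * B')
      rw [tdeg_C_mul hγ] at h1
      rcases le_total B.totalDegree B'.totalDegree with h2 | h2
      · rw [max_eq_right h2] at h1; omega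
      · rw [max_eq_left h2] at h1; omega
  have hB1 : B = C γ * B' := sub_eq_zero.1 hR
  refine ⟨?_, hB1⟩
  rw [C_mul]
  linear_combination h - hB1

/-- A gate with nonzero remainder is an atom. -/
theorem atom_gate [CharZero k] {F B : MvPolynomial σ k} {a : k} {e : ℕ} (ha : a ≠ 0)
    (he : 2 ≤ e) (hF : 1 ≤ F.totalDegree) (hB0 : B ≠ 0)
    (hB : 6 * B.totalDegree ≤ e * F.totalDegree) : Atom (C a * F ^ e + B) := by
  have hd := tdeg_gate ha he hF hB
  have h2 : 2 ≤ e * F.totalDegree := by nlinarith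
  refine ⟨by omega, ?_⟩
  intro c W n hW
  have hc : c ≠ 0 := by
    rintro rfl
    rw [hW] at hd
    simp at hd
    omega
  have hW0 : W ≠ 0 ∨ n = 0 := by
    by_cases hn : n = 0
    · exact Or.inr hn
    · left; rintro rfl
      rw [hW, zero_pow hn, mul_zero, totalDegree_zero] at hd; omega
  rcases hW0 with hW0 | hn
  · by_contra hn1
    have hn2 : n = 0 ∨ 2 ≤ n := by omega
    rcases hn2 with hn2 | hn2
    · rw [hW, hn2, pow_zero, mul_one, totalDegree_C] at hd; omega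
    · apply hB0
      refine rigid (W := W) (F := F) hc ha hn2 he hW0 (ne_zero_of_tdeg hF) ?_ ?_ ?_
      · rw [← hW]; ring
      · rw [tdeg_pow ha]; omega
      · rw [tdeg_pow ha]; exact hB
  · exfalso
    rw [hW, hn, pow_zero, mul_one, totalDegree_C] at hd; omega

/-- Divisibility both ways means proportional. -/
theorem eq_C_mul_of_dvd_dvd {F G : MvPolynomial σ k} (hF : F ≠ 0) (h1 : F ∣ G) (h2 : G ∣ F) :
    ∃ u : k, u ≠ 0 ∧ F = C u * G := by
  obtain ⟨v, hv⟩ := associated_of_dvd_dvd h2 h1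
  have hu : IsUnit (v : MvPolynomial σ k) := v.isUnit
  rw [isUnit_iff_eq_C_of_isReduced] at hu
  obtain ⟨r, hr, hr2⟩ := hu
  refine ⟨r, hr.ne_zero, ?_⟩
  rw [← hv, hr2, mul_comm]

/-- If `F^(αg) ~ F'^(βg)` with `αx = 1 + βy`, then `F` is a constant times a `β`-th power. -/
theorem power_of_bezout {F F' : MvPolynomial σ k} {a a' : k} {α β g x y : ℕ} (hF : F ≠ 0)
    (hF' : F' ≠ 0) (ha : a ≠ 0) (ha' : a' ≠ 0) (hg : g ≠ 0) (hβ : β ≠ 0)
    (hxy : α * x = 1 + β * y) (h : C a * F ^ (α * g) = C a' * F' ^ (β * g)) :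
    ∃ (c : k) (H : MvPolynomial σ k), F = C c * H ^ β := by
  have ua : IsUnit (C a : MvPolynomial σ k) := (isUnit_iff_ne_zero.2 ha).map C
  have ua' : IsUnit (C a' : MvPolynomial σ k) := (isUnit_iff_ne_zero.2 ha').map C
  have d1 : (F ^ α) ^ g ∣ (F' ^ β) ^ g := by
    rw [← pow_mul, ← pow_mul]
    have : F ^ (α * g) ∣ C a' * F' ^ (β * g) := h ▸ Dvd.intro_left _ rfl
    exact (ua'.dvd_mul_left).1 this
  have d2 : (F' ^ β) ^ g ∣ (F ^ α) ^ g := by
    rw [← pow_mul, ← pow_mul]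
    have : F' ^ (β * g) ∣ C a * F ^ (α * g) := h ▸ Dvd.intro_left _ rfl
    exact (ua.dvd_mul_left).1 this
  rw [UniqueFactorizationMonoid.pow_dvd_pow_iff_dvd hg] at d1 d2
  obtain ⟨c, hc, hcF⟩ := eq_C_mul_of_dvd_dvd (pow_ne_zero _ hF) d1 d2
  -- F^α = c F'^β
  have h1 : F ^ (α * x) = C (c ^ x) * (F' ^ x) ^ β := by
    rw [pow_mul, hcF, mul_pow, C_pow, ← pow_mul, ← pow_mul, mul_comm β x]
  have h2 : (F ^ y) ^ β ∣ (F' ^ x) ^ β := by
    have hcx : IsUnit (C (c ^ x) : MvPolynomial σ k) :=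
      (isUnit_iff_ne_zero.2 (pow_ne_zero _ hc)).map C
    rw [← hcx.dvd_mul_left, ← h1, hxy, pow_add, pow_one, ← pow_mul, mul_comm y β]
    exact Dvd.intro_left _ rfl
  rw [UniqueFactorizationMonoid.pow_dvd_pow_iff_dvd hβ] at h2
  obtain ⟨H, hH⟩ := h2
  refine ⟨c ^ x, H, ?_⟩
  have h3 : F ^ (β * y) * F = F ^ (β * y) * (C (c ^ x) * H ^ β) := by
    calc F ^ (β * y) * F = F ^ (α * x) := by rw [hxy]; ring
      _ = C (c ^ x) * (F ^ y * H) ^ β := by rw [h1, hH]
      _ = F ^ (β * y) * (C (c ^ x) * H ^ β) := by rw [mul_pow, ← pow_mul, mul_comm y β]; ring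
  exact mul_left_cancel₀ (pow_ne_zero _ hF) h3

theorem exists_bezout {α β : ℕ} (h : Nat.Coprime α β) (hα : α ≠ 0) :
    ∃ x y : ℕ, α * x = 1 + β * y := by
  rcases Nat.lt_or_ge 1 β with hβ | hβ
  · obtain ⟨m, -, hm⟩ := Nat.exists_mul_mod_eq_one_of_coprime h hβ
    refine ⟨m, α * m / β, ?_⟩
    have := Nat.div_add_mod (α * m) β
    omega
  · interval_cases β
    · rw [Nat.coprime_zero_right] at h
      exact ⟨1, 0, by omega⟩
    · exact ⟨1, α - 1, by omega⟩

/-- Two powers of atoms are proportional only if the exponents and the bases agree. -/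
theorem atom_pow {F F' : MvPolynomial σ k} {a a' : k} {e e' : ℕ} (hF : Atom F) (hF' : Atom F')
    (ha : a ≠ 0) (ha' : a' ≠ 0) (he : e ≠ 0) (he' : e' ≠ 0)
    (h : C a * F ^ e = C a' * F' ^ e') :
    e = e' ∧ ∃ u : k, u ≠ 0 ∧ F = C u * F' ∧ a * u ^ e = a' := by
  have hF0 := ne_zero_of_tdeg hF.1
  have hF0' := ne_zero_of_tdeg hF'.1
  set g := Nat.gcd e e' with hg
  have hg0 : g ≠ 0 := Nat.gcd_ne_zero_left he
  obtain ⟨α, hα⟩ : g ∣ e := Nat.gcd_dvd_left _ _
  obtain ⟨β, hβ⟩ : g ∣ e' := Nat.gcd_dvd_right _ _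
  have hα0 : α ≠ 0 := by rintro rfl; exact he (by rw [hα, mul_zero])
  have hβ0 : β ≠ 0 := by rintro rfl; exact he' (by rw [hβ, mul_zero])
  have hcop : Nat.Coprime α β := by
    have h1 : g * Nat.gcd α β = g * 1 := by
      rw [← Nat.gcd_mul_left, ← hα, ← hβ, mul_one]
    exact Nat.eq_of_mul_eq_mul_left (Nat.pos_of_ne_zero hg0) h1
  have hβ1 : β = 1 := by
    obtain ⟨x, y, hxy⟩ := exists_bezout hcop hα0
    obtain ⟨c, H, hH⟩ := power_of_bezout hF0 hF0' ha ha' hg0 hβ0 hxy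
      (by rw [mul_comm α g, mul_comm β g, ← hα, ← hβ]; exact h)
    exact hF.2 c H β hH
  have hα1 : α = 1 := by
    obtain ⟨x, y, hxy⟩ := exists_bezout hcop.symm hβ0
    obtain ⟨c, H, hH⟩ := power_of_bezout hF0' hF0 ha' ha hg0 hα0 hxy
      (by rw [mul_comm α g, mul_comm β g, ← hα, ← hβ]; exact h.symm)
    exact hF'.2 c H α hH
  have hee : e = e' := by rw [hα, hβ, hα1, hβ1]
  refine ⟨hee, ?_⟩
  subst hee
  have ua : IsUnit (C a : MvPolynomial σ k) := (isUnit_iff_ne_zero.2 ha).map C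
  have ua' : IsUnit (C a' : MvPolynomial σ k) := (isUnit_iff_ne_zero.2 ha').map C
  have d1 : F ^ e ∣ F' ^ e := by
    have : F ^ e ∣ C a' * F' ^ e := h ▸ Dvd.intro_left _ rfl
    exact (ua'.dvd_mul_left).1 this
  have d2 : F' ^ e ∣ F ^ e := by
    have : F' ^ e ∣ C a * F ^ e := h ▸ Dvd.intro_left _ rfl
    exact (ua.dvd_mul_left).1 this
  rw [UniqueFactorizationMonoid.pow_dvd_pow_iff_dvd he] at d1 d2
  obtain ⟨u, hu, huF⟩ := eq_C_mul_of_dvd_dvd hF0 d1 d2
  refine ⟨u, hu, huF, ?_⟩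
  rw [huF, mul_pow, ← mul_assoc, ← C_pow, ← C_mul] at h
  have := mul_right_cancel₀ (pow_ne_zero _ hF0') h
  exact C_injective _ _ this

end Pool.Agent.Helper12_Tower
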