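import Pool.Agent.Helper12_Tower.Atom

set_option autoImplicit false

/-! Lacunary power circuits: every gate is an explicit polynomial or `a * F ^ e + B`. -/

namespace Pool.Agent.Helper12_Tower

open MvPolynomial

/-- One instruction: an explicit polynomial, or `a * g_F ^ e + g_B`. -/
inductive Instr (σ k : Type) [Field k]
  | leaf (p : MvPolynomial σ k)
  | pow (a : k) (e F B : ℕ)

variable {σ k : Type} [Field k]

/-- The polynomial computed by gate `i`. -/
noncomputable def val (P : ℕ → Instr σ k) (i : ℕ) : MvPolynomial σ k :=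
  match P i with
  | .leaf p => p
  | .pow a e F B => if _h : F < i ∧ B < i then C a * val P F ^ e + val P B else 0
termination_by i
decreasing_by all_goals omega

/-- The degree read off from the instructions. -/
noncomputable def deg (P : ℕ → Instr σ k) (i : ℕ) : ℕ :=
  match P i with
  | .leaf p => p.totalDegree
  | .pow _ e F _ => if _h : F < i then e * deg P F else 0
termination_by i

/-- The conditions on gate `i` of a lacunary power circuit. -/
def GateOK (P : ℕ → Instr σ k) (d0 : ℕ) (i : ℕ) : Prop :=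
  match P i with
  | .leaf p => p ≠ 0 ∧ p.totalDegree < d0
  | .pow a e F B => F < i ∧ B < i ∧ a ≠ 0 ∧ 2 ≤ e ∧ (∀ p, P F = .leaf p → Atom p) ∧
      6 * deg P B ≤ e * deg P F ∧ d0 ≤ e * deg P F

/-- `P` restricted to its first `s` instructions is a lacunary power circuit. -/
def Lacunary (P : ℕ → Instr σ k) (s d0 : ℕ) : Prop := ∀ i < s, GateOK P d0 i

open Classical in
/-- The scalar `γ ≠ 0` with `p = γ q`, if there is one. -/
noncomputable def leafRatio (p q : MvPolynomial σ k) : Option k :=
  if h : ∃ γ : k, γ ≠ 0 ∧ p = C γ * q then some h.choose else none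

open Classical in
/-- The table filled by the test. -/
noncomputable def ratio (P : ℕ → Instr σ k) (i j : ℕ) : Option k :=
  match P i, P j with
  | .leaf p, .leaf q => leafRatio p q
  | .pow a e F B, .pow a' e' F' B' =>
      if _h : F < i ∧ B < i then
        match ratio P F F', ratio P B B' with
        | some u, some γ => if e = e' ∧ a * u ^ e = γ * a' then some γ else none
        | _, _ => none
      else none
  | _, _ => none
termination_by i
decreasing_by all_goals omega

theorem leafRatio_spec {p q : MvPolynomial σ k} (hq : q ≠ 0) (γ : k) :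
    leafRatio p q = some γ ↔ γ ≠ 0 ∧ p = C γ * q := by
  unfold leafRatio
  split_ifs with h
  · constructor
    · intro h1
      have h2 := Option.some.inj h1
      rw [← h2]; exact h.choose_spec
    · rintro ⟨h1, h2⟩
      congr 1
      have h3 := h2.symm.trans h.choose_spec.2
      have h4 := mul_right_cancel₀ hq h3
      exact (C_injective _ _ h4).symm
  · constructor
    · intro h1; exact absurd h1 (by simp)
    · intro h1; exact absurd ⟨γ, h1⟩ h

theorem val_leaf {P : ℕ → Instr σ k} {i : ℕ} {p : MvPolynomial σ k} (h : P i = .leaf p) :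
    val P i = p := by
  rw [val]; simp only [h]

theorem val_pow {P : ℕ → Instr σ k} {i : ℕ} {a : k} {e F B : ℕ} (h : P i = .pow a e F B)
    (hF : F < i) (hB : B < i) : val P i = C a * val P F ^ e + val P B := by
  rw [val]; simp only [h]
  rw [dif_pos ⟨hF, hB⟩]

theorem deg_leaf {P : ℕ → Instr σ k} {i : ℕ} {p : MvPolynomial σ k} (h : P i = .leaf p) :
    deg P i = p.totalDegree := by
  rw [deg]; simp only [h]

theorem deg_pow {P : ℕ → Instr σ k} {i : ℕ} {a : k} {e F B : ℕ} (h : P i = .pow a e F B)
    (hF : F < i) : deg P i = e * deg P F := by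
  rw [deg]; simp only [h]
  rw [dif_pos hF]

theorem ok_leaf {P : ℕ → Instr σ k} {i d0 : ℕ} {p : MvPolynomial σ k} (h : P i = .leaf p)
    (ok : GateOK P d0 i) : p ≠ 0 ∧ p.totalDegree < d0 := by
  unfold GateOK at ok; simpa only [h] using ok

theorem ok_pow {P : ℕ → Instr σ k} {i d0 : ℕ} {a : k} {e F B : ℕ} (h : P i = .pow a e F B)
    (ok : GateOK P d0 i) : F < i ∧ B < i ∧ a ≠ 0 ∧ 2 ≤ e ∧ (∀ p, P F = .leaf p → Atom p) ∧
      6 * deg P B ≤ e * deg P F ∧ d0 ≤ e * deg P F := by
  unfold GateOK at ok; simpa only [h] using ok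

theorem instr_cases (x : Instr σ k) : (∃ p, x = .leaf p) ∨ ∃ a e F B, x = .pow a e F B := by
  cases x with
  | leaf p => exact Or.inl ⟨p, rfl⟩
  | pow a e F B => exact Or.inr ⟨a, e, F, B, rfl⟩

theorem ratio_leaf {P : ℕ → Instr σ k} {i j : ℕ} {p q : MvPolynomial σ k} (h : P i = .leaf p)
    (h' : P j = .leaf q) : ratio P i j = leafRatio p q := by
  rw [ratio]; simp only [h, h']

theorem ratio_leaf_pow {P : ℕ → Instr σ k} {i j : ℕ} {p : MvPolynomial σ k} {a : k} {e F B : ℕ}
    (h : P i = .leaf p) (h' : P j = .pow a e F B) : ratio P i j = none := by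
  rw [ratio]; simp only [h, h']

theorem ratio_pow_leaf {P : ℕ → Instr σ k} {i j : ℕ} {p : MvPolynomial σ k} {a : k} {e F B : ℕ}
    (h : P i = .pow a e F B) (h' : P j = .leaf p) : ratio P i j = none := by
  rw [ratio]; simp only [h, h']

theorem ratio_pow_iff {P : ℕ → Instr σ k} {i j : ℕ} {a a' : k} {e F B e' F' B' : ℕ}
    (h : P i = .pow a e F B) (h' : P j = .pow a' e' F' B') (hF : F < i) (hB : B < i) (γ : k) :
    ratio P i j = some γ ↔
      ∃ u, ratio P F F' = some u ∧ ratio P B B' = some γ ∧ e = e' ∧ a * u ^ e = γ * a' := by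
  rw [ratio]; simp only [h, h']
  rw [dif_pos ⟨hF, hB⟩]
  cases h1 : ratio P F F' with
  | none => simp
  | some u =>
    cases h2 : ratio P B B' with
    | none => simp
    | some γ' =>
      simp only
      constructor
      · intro h3
        split_ifs at h3 with h4
        have h5 := Option.some.inj h3
        subst h5
        exact ⟨u, rfl, rfl, h4.1, h4.2⟩
      · rintro ⟨u', h3, h4, h5, h6⟩
        have e1 := Option.some.inj h3
        have e2 := Option.some.inj h4
        subst e1; subst e2
        rw [if_pos ⟨h5, h6⟩]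

/-- Degrees are as computed, gates are nonzero, and power gates are not constant. -/
theorem basic [CharZero k] {P : ℕ → Instr σ k} {s d0 : ℕ} (hP : Lacunary P s d0) :
    ∀ i < s, (val P i).totalDegree = deg P i ∧ val P i ≠ 0 ∧
      (∀ a e F B, P i = .pow a e F B → 1 ≤ deg P F ∧ 2 ≤ deg P i) := by
  intro i
  induction i using Nat.strong_induction_on with
  | _ i ih =>
    intro his
    have ok := hP i his
    rcases instr_cases (P i) with ⟨p, hp⟩ | ⟨a, e, F, B, hp⟩
    · obtain ⟨h1, h2⟩ := ok_leaf hp ok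
      rw [val_leaf hp, deg_leaf hp]
      refine ⟨rfl, h1, ?_⟩
      intro a e F B h3; rw [hp] at h3; exact absurd h3 (by simp)
    · obtain ⟨hF, hB, ha, he, hat, h6, hd⟩ := ok_pow hp ok
      obtain ⟨i1, i2, i3⟩ := ih F hF (hF.trans his)
      obtain ⟨j1, j2, -⟩ := ih B hB (hB.trans his)
      have hF1 : 1 ≤ deg P F := by
        rcases instr_cases (P F) with ⟨q, hq⟩ | ⟨a1, e1, F1, B1, hq⟩
        · rw [deg_leaf hq]; exact (hat q hq).1
        · have := (i3 _ _ _ _ hq).2; omega
      have h7 : (val P i).totalDegree = deg P i := by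
        rw [val_pow hp hF hB, deg_pow hp hF, ← i1]
        refine tdeg_gate ha he (by rw [i1]; exact hF1) (by rw [i1, j1]; exact h6)
      have h8 : 2 ≤ deg P i := by rw [deg_pow hp hF]; nlinarith
      refine ⟨h7, ?_, ?_⟩
      · intro h0; rw [h0, totalDegree_zero] at h7; omega
      · intro a' e' F' B' h'
        rw [hp] at h'
        injection h' with e1 e2 e3 e4
        subst e3
        exact ⟨hF1, h8⟩

/-- The base of a power gate is an atom. -/
theorem atom_base [CharZero k] {P : ℕ → Instr σ k} {s d0 : ℕ} (hP : Lacunary P s d0) {i : ℕ}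
    (his : i < s) {a : k} {e F B : ℕ} (hp : P i = .pow a e F B) : Atom (val P F) := by
  obtain ⟨hF, hB, ha, he, hat, h6, hd⟩ := ok_pow hp (hP i his)
  rcases instr_cases (P F) with ⟨q, hq⟩ | ⟨a1, e1, F1, B1, hq⟩
  · rw [val_leaf hq]; exact hat q hq
  · obtain ⟨hF', hB', ha', he', hat', h6', hd'⟩ := ok_pow hq (hP F (hF.trans his))
    rw [val_pow hq hF' hB']
    have b1 := basic hP F (hF.trans his)
    have b2 := basic hP F1 (hF'.trans (hF.trans his))
    have b3 := basic hP B1 (hB'.trans (hF.trans his))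
    refine atom_gate ha' he' ?_ b3.2.1 ?_
    · rw [b2.1]; exact (b1.2.2 _ _ _ _ hq).1
    · rw [b2.1, b3.1]; exact h6'

/-- Correctness of the table. -/
theorem ratio_spec [CharZero k] {P : ℕ → Instr σ k} {s d0 : ℕ} (hP : Lacunary P s d0) :
    ∀ i < s, ∀ j < s, ∀ γ : k, ratio P i j = some γ ↔ γ ≠ 0 ∧ val P i = C γ * val P j := by
  intro i
  induction i using Nat.strong_induction_on with
  | _ i ih =>
    intro his j hjs γ
    have bi := basic hP i his
    have bj := basic hP j hjs
    rcases instr_cases (P i) with ⟨p, hp⟩ | ⟨a, e, F, B, hp⟩ <;>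
    rcases instr_cases (P j) with ⟨q, hq⟩ | ⟨a', e', F', B', hq⟩
    · rw [ratio_leaf hp hq, val_leaf hp, val_leaf hq]
      exact leafRatio_spec (ok_leaf hq (hP j hjs)).1 γ
    · rw [ratio_leaf_pow hp hq]
      constructor
      · intro h; exact absurd h (by simp)
      · rintro ⟨h1, h2⟩
        exfalso
        have h3 := (ok_leaf hp (hP i his)).2
        obtain ⟨hF, hB, ha, he, hat, h6, hd⟩ := ok_pow hq (hP j hjs)
        have h4 : (val P i).totalDegree = (val P j).totalDegree := by rw [h2, tdeg_C_mul h1]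
        rw [bj.1, deg_pow hq hF, val_leaf hp] at h4
        omega
    · rw [ratio_pow_leaf hp hq]
      constructor
      · intro h; exact absurd h (by simp)
      · rintro ⟨h1, h2⟩
        exfalso
        have h3 := (ok_leaf hq (hP j hjs)).2
        obtain ⟨hF, hB, ha, he, hat, h6, hd⟩ := ok_pow hp (hP i his)
        have h4 : (val P i).totalDegree = (val P j).totalDegree := by rw [h2, tdeg_C_mul h1]
        rw [bi.1, deg_pow hp hF, val_leaf hq] at h4
        omega
    · obtain ⟨hF, hB, ha, he, hat, h6, hd⟩ := ok_pow hp (hP i his)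
      obtain ⟨hF', hB', ha', he', hat', h6', hd'⟩ := ok_pow hq (hP j hjs)
      have bF := basic hP F (hF.trans his)
      have bB := basic hP B (hB.trans his)
      have bF' := basic hP F' (hF'.trans hjs)
      have bB' := basic hP B' (hB'.trans hjs)
      rw [ratio_pow_iff hp hq hF hB]
      constructor
      · rintro ⟨u, h1, h2, h3, h4⟩
        rw [ih F hF (hF.trans his) F' (hF'.trans hjs)] at h1
        rw [ih B hB (hB.trans his) B' (hB'.trans hjs)] at h2
        refine ⟨h2.1, ?_⟩
        rw [val_pow hp hF hB, val_pow hq hF' hB', h1.2, h2.2, ← h3, mul_pow]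
        have h5 : (C a : MvPolynomial σ k) * C u ^ e = C γ * C a' := by
          rw [← C_pow, ← C_mul, h4, C_mul]
        linear_combination (val P F') ^ e * h5
      · rintro ⟨h1, h2⟩
        rw [val_pow hp hF hB, val_pow hq hF' hB'] at h2
        obtain ⟨s1, s2⟩ := split ha ha' h1 he he' (by rw [bF.1]; exact (bi.2.2 _ _ _ _ hp).1)
          (by rw [bF'.1]; exact (bj.2.2 _ _ _ _ hq).1) (by rw [bF.1, bB.1]; exact h6)
          (by rw [bF'.1, bB'.1]; exact h6') h2
        obtain ⟨t1, u, t2, t3, t4⟩ := atom_pow (atom_base hP his hp) (atom_base hP hjs hq) ha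
          (mul_ne_zero h1 ha') (by omega) (by omega) s1
        refine ⟨u, ?_, ?_, t1, t4⟩
        · rw [ih F hF (hF.trans his) F' (hF'.trans hjs)]; exact ⟨t2, t3⟩
        · rw [ih B hB (hB.trans his) B' (hB'.trans hjs)]; exact ⟨h1, s2⟩

/-- Every entry of the table is the ratio of two leaves. -/
theorem ratio_leaves [CharZero k] {P : ℕ → Instr σ k} {s d0 : ℕ} (hP : Lacunary P s d0) :
    ∀ i < s, ∀ j < s, ∀ γ : k, ratio P i j = some γ → ∃ i' ≤ i, ∃ j' ≤ j, ∃ p q,
      P i' = .leaf p ∧ P j' = .leaf q ∧ p = C γ * q := by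
  intro i
  induction i using Nat.strong_induction_on with
  | _ i ih =>
    intro his j hjs γ h
    rcases instr_cases (P i) with ⟨p, hp⟩ | ⟨a, e, F, B, hp⟩ <;>
    rcases instr_cases (P j) with ⟨q, hq⟩ | ⟨a', e', F', B', hq⟩
    · rw [ratio_leaf hp hq] at h
      exact ⟨i, le_rfl, j, le_rfl, p, q, hp, hq,
        ((leafRatio_spec (ok_leaf hq (hP j hjs)).1 γ).1 h).2⟩
    · rw [ratio_leaf_pow hp hq] at h; exact absurd h (by simp)
    · rw [ratio_pow_leaf hp hq] at h; exact absurd h (by simp)
    · obtain ⟨hF, hB, -⟩ := ok_pow hp (hP i his)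
      obtain ⟨hF', hB', -⟩ := ok_pow hq (hP j hjs)
      rw [ratio_pow_iff hp hq hF hB] at h
      obtain ⟨u, -, h2, -, -⟩ := h
      obtain ⟨i', h3, j', h4, h5⟩ := ih B hB (hB.trans his) B' (hB'.trans hjs) γ h2
      exact ⟨i', h3.trans hB.le, j', h4.trans hB'.le, h5⟩

/-- The exponent test over the rationals is cheap: if `a u^e = γ a'` then `u = ±1` or `e` is at
most the bit length of `γ a' / a`. -/
theorem exp_test {a a' u γ : ℚ} {e : ℕ} (ha : a ≠ 0) (hu : u ≠ 0) (h : a * u ^ e = γ * a') :
    u = 1 ∨ u = -1 ∨ 2 ^ e ≤ max (γ * a' / a).num.natAbs (γ * a' / a).den := by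
  have h1 : γ * a' / a = u ^ e := by rw [← h]; field_simp
  rw [h1]
  by_cases hd : u.den = 1
  · by_cases hn : u.num.natAbs = 1
    · have h2 : u.num = 1 ∨ u.num = -1 := Int.natAbs_eq_iff.1 hn |>.imp (by simp) (by simp)
      have h3 : u = u.num := by
        conv_lhs => rw [← Rat.num_div_den u]
        rw [hd]; simp
      rcases h2 with h2 | h2
      · left; rw [h3, h2]; simp
      · right; left; rw [h3, h2]; simp
    · right; right
      have h2 : 2 ≤ u.num.natAbs := by
        have : u.num.natAbs ≠ 0 := by simpa using hu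
        omega
      refine le_max_of_le_left ?_
      rw [Rat.num_pow, Int.natAbs_pow]
      exact Nat.pow_le_pow_left h2 e
  · right; right
    have h2 : 2 ≤ u.den := by have := u.den_pos; omega
    refine le_max_of_le_right ?_
    rw [Rat.den_pow]
    exact Nat.pow_le_pow_left h2 e

end Pool.Agent.Helper12_Tower
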