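import Pool.Agent.Helper12_Tower.Uni

set_option autoImplicit false

/-! Transfer to several variables along a generic line through the origin. -/

namespace Pool.Agent.Helper12_Tower

open MvPolynomial

variable {σ k : Type} [Field k]

/-- The field of rational functions in the direction variables. -/
abbrev KK (σ k : Type) [Field k] : Type := FractionRing (MvPolynomial σ k)

/-- `x_i ↦ b_i T`. -/
noncomputable def line (σ k : Type) [Field k] : MvPolynomial σ k →+* Polynomial (KK σ k) :=
  MvPolynomial.eval₂Hom (Polynomial.C.comp (algebraMap k (KK σ k)))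
    (fun i => Polynomial.C (algebraMap (MvPolynomial σ k) (KK σ k) (X i)) * Polynomial.X)

theorem line_C (a : k) : line σ k (C a) = Polynomial.C (algebraMap k (KK σ k) a) := by
  simp [line]

theorem line_monomial (m : σ →₀ ℕ) (a : k) :
    line σ k (monomial m a)
      = Polynomial.C (algebraMap (MvPolynomial σ k) (KK σ k) (monomial m a))
        * Polynomial.X ^ m.degree := by
  unfold line
  rw [MvPolynomial.coe_eval₂Hom, MvPolynomial.eval₂_monomial]
  simp_rw [mul_pow]
  rw [Finsupp.prod_mul]
  have h1 : (m.prod fun (_ : σ) (n : ℕ) => (Polynomial.X : Polynomial (KK σ k)) ^ n)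
      = Polynomial.X ^ m.degree := by
    rw [Finsupp.prod, Finset.prod_pow_eq_pow_sum]; rfl
  rw [h1, ← mul_assoc]
  congr 1
  have h2 : (m.prod fun (i : σ) (n : ℕ) =>
      (Polynomial.C (algebraMap (MvPolynomial σ k) (KK σ k) (X i)) : Polynomial (KK σ k)) ^ n)
      = Polynomial.C (algebraMap (MvPolynomial σ k) (KK σ k) (m.prod fun i n => X i ^ n)) := by
    rw [Finsupp.prod, Finsupp.prod, map_prod, map_prod]
    simp
  rw [h2]
  have h3 : (Polynomial.C.comp (algebraMap k (KK σ k))) a
      = Polynomial.C (algebraMap (MvPolynomial σ k) (KK σ k) (C a)) := by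
    simp only [RingHom.comp_apply]
    congr 1
  rw [h3, ← Polynomial.C_mul, ← map_mul]
  congr 2
  rw [monomial_eq]

theorem coeff_line (p : MvPolynomial σ k) (d : ℕ) :
    (line σ k p).coeff d
      = algebraMap (MvPolynomial σ k) (KK σ k) (homogeneousComponent d p) := by
  induction p using MvPolynomial.induction_on' with
  | monomial m a =>
    rw [line_monomial, Polynomial.coeff_C_mul, Polynomial.coeff_X_pow]
    have h : (monomial m a : MvPolynomial σ k) ∈ homogeneousSubmodule σ k m.degree :=
      isHomogeneous_monomial a rfl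
    rw [homogeneousComponent_of_mem h]
    split_ifs <;> simp
  | add p q hp hq => rw [map_add, Polynomial.coeff_add, hp, hq, map_add, map_add]

theorem line_ne_zero {p : MvPolynomial σ k} (hp : p ≠ 0) : line σ k p ≠ 0 := by
  intro h
  apply hp
  rw [← sum_homogeneousComponent p]
  apply Finset.sum_eq_zero
  intro i _
  have := coeff_line p i
  rw [h, Polynomial.coeff_zero] at this
  exact (IsFractionRing.injective (MvPolynomial σ k) (KK σ k)) (by rw [← this, map_zero])

theorem natDegree_line (p : MvPolynomial σ k) : (line σ k p).natDegree = p.totalDegree := by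
  by_cases hp : p = 0
  · subst hp; simp
  apply le_antisymm
  · rw [Polynomial.natDegree_le_iff_coeff_eq_zero]
    intro d hd
    rw [coeff_line, homogeneousComponent_eq_zero _ _ hd, map_zero]
  · apply Polynomial.le_natDegree_of_ne_zero
    rw [coeff_line]
    intro h
    have h0 : homogeneousComponent p.totalDegree p = 0 :=
      (IsFractionRing.injective (MvPolynomial σ k) (KK σ k)) (by rw [h, map_zero])
    obtain ⟨m, hm, hmd⟩ : ∃ m ∈ p.support, m.degree = p.totalDegree := by
      have hne : p.support.Nonempty := by
        rw [Finset.nonempty_iff_ne_empty]; simpa using hp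
      obtain ⟨m, hm, h1⟩ := Finset.exists_mem_eq_sup p.support hne (fun s => s.degree)
      refine ⟨m, hm, ?_⟩
      rw [← h1]; rfl
    have h1 := coeff_homogeneousComponent p.totalDegree p m
    rw [h0, coeff_zero, if_pos hmd] at h1
    exact (mem_support_iff.1 hm) h1.symm

/-- Rigidity in several variables. -/
theorem rigid [CharZero k] {W F R : MvPolynomial σ k} {c a : k} {α e : ℕ} (hc : c ≠ 0)
    (ha : a ≠ 0) (hα : 2 ≤ α) (he : 2 ≤ e) (hW : W ≠ 0) (hF : F ≠ 0)
    (h : C c * W ^ α - C a * F ^ e = R) (hn : 1 ≤ (C a * F ^ e).totalDegree)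
    (hdeg : 6 * R.totalDegree ≤ (C a * F ^ e).totalDegree) : R = 0 := by
  by_contra hR
  have hinj : Function.Injective (algebraMap k (KK σ k)) := (algebraMap k (KK σ k)).injective
  haveI : CharZero (KK σ k) := charZero_of_injective_algebraMap hinj
  have h1 : Polynomial.C (algebraMap k (KK σ k) c) * (line σ k W) ^ α
      - Polynomial.C (algebraMap k (KK σ k) a) * (line σ k F) ^ e = line σ k R := by
    rw [← h, map_sub, map_mul, map_mul, map_pow, map_pow, line_C, line_C]
  have h2 : Polynomial.C (algebraMap k (KK σ k) a) * (line σ k F) ^ e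
      = line σ k (C a * F ^ e) := by rw [map_mul, map_pow, line_C]
  refine line_ne_zero hR (rigid_uni (c := algebraMap k (KK σ k) c) (a := algebraMap k (KK σ k) a)
    ?_ ?_ hα he (line_ne_zero hW) (line_ne_zero hF) h1 ?_ ?_)
  · exact (map_ne_zero _).2 hc
  · exact (map_ne_zero _).2 ha
  · rw [h2, natDegree_line]; exact hn
  · rw [h2, natDegree_line, natDegree_line]; exact hdeg

end Pool.Agent.Helper12_Tower
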