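import Mathlib

set_option autoImplicit false

/-! Univariate rigidity: a difference of two powers is either zero or has large degree. -/

namespace Pool.Agent.Helper12_Tower

open Polynomial UniqueFactorizationMonoid

variable {K : Type} [Field K] [CharZero K]

/-- natDegree of the radical of a power times a constant. -/
theorem natDegree_radical_le_of_dvd [DecidableEq K] {p w : K[X]} {c : K} {n : ℕ} (hw : w ≠ 0)
    (h : p ∣ C c * w ^ n) (hc : c ≠ 0) : (radical p).natDegree ≤ w.natDegree := by
  have h1 : p ∣ w ^ n := by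
    rcases h with ⟨q, hq⟩
    refine ⟨C c⁻¹ * q, ?_⟩
    calc w ^ n = C c⁻¹ * (C c * w ^ n) := by
          rw [← mul_assoc, ← C_mul, inv_mul_cancel₀ hc]; simp
      _ = p * (C c⁻¹ * q) := by rw [hq]; ring
  have h2 : radical p ∣ radical (w ^ n) := radical_dvd_radical h1 (pow_ne_zero _ hw)
  have h3 : radical p ∣ w := h2.trans (radical_pow_dvd.trans radical_dvd_self)
  exact natDegree_le_of_dvd h3 hw

/-- The ABC estimate for a difference of two powers. -/
theorem abc_powers [DecidableEq K] {W F R : K[X]} {c a : K} {α e : ℕ} (hc : c ≠ 0) (ha : a ≠ 0)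
    (hW : W ≠ 0) (hF : F ≠ 0) (hR : R ≠ 0) (h : C c * W ^ α - C a * F ^ e = R)
    (hdeg : R.natDegree < (C c * W ^ α).natDegree) :
    (C c * W ^ α).natDegree + 1 ≤ W.natDegree + F.natDegree + R.natDegree := by
  set P := C c * W ^ α with hP
  set Q := C a * F ^ e with hQ
  have hP0 : P ≠ 0 := mul_ne_zero (C_ne_zero.2 hc) (pow_ne_zero _ hW)
  have hQ0 : Q ≠ 0 := mul_ne_zero (C_ne_zero.2 ha) (pow_ne_zero _ hF)
  set D := EuclideanDomain.gcd P Q with hD
  obtain ⟨p, hp⟩ := EuclideanDomain.gcd_dvd_left P Q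
  obtain ⟨q, hq⟩ := EuclideanDomain.gcd_dvd_right P Q
  rw [← hD] at hp hq
  have hD0 : D ≠ 0 := by
    intro h0; rw [h0, zero_mul] at hp; exact hP0 hp
  have hp0 : p ≠ 0 := by intro h0; rw [h0, mul_zero] at hp; exact hP0 hp
  have hq0 : q ≠ 0 := by intro h0; rw [h0, mul_zero] at hq; exact hQ0 hq
  have hr : R = D * (p - q) := by rw [← h, mul_sub, ← hp, ← hq]
  have hr0 : p - q ≠ 0 := by intro h0; rw [h0, mul_zero] at hr; exact hR hr
  have hcop : IsCoprime p q := by
    have h1 := EuclideanDomain.gcd_eq_gcd_ab P Q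
    rw [← hD] at h1
    refine ⟨EuclideanDomain.gcdA P Q, EuclideanDomain.gcdB P Q, ?_⟩
    apply mul_left_cancel₀ hD0
    calc D * (EuclideanDomain.gcdA P Q * p + EuclideanDomain.gcdB P Q * q)
        = (D * p) * EuclideanDomain.gcdA P Q + (D * q) * EuclideanDomain.gcdB P Q := by ring
      _ = D := by rw [← hp, ← hq, ← h1]
      _ = D * 1 := (mul_one _).symm
  have habc := Polynomial.abc (a := p) (b := -q) (c := -(p - q)) hp0 (neg_ne_zero.2 hq0)
    (neg_ne_zero.2 hr0) hcop.neg_right (by ring)
  rcases habc with ⟨h1, -, -⟩ | ⟨h1, h2, h3⟩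
  · -- degree bound of the radical
    have hdP : P.natDegree = D.natDegree + p.natDegree := by rw [hp, natDegree_mul hD0 hp0]
    have hdR : R.natDegree = D.natDegree + (p - q).natDegree := by
      rw [hr, natDegree_mul hD0 hr0]
    have hrp : (radical p).natDegree ≤ W.natDegree :=
      natDegree_radical_le_of_dvd (n := α) hW (hP ▸ ⟨D, by rw [hp]; ring⟩) hc
    have hrq : (radical q).natDegree ≤ F.natDegree :=
      natDegree_radical_le_of_dvd (n := e) hF (hQ ▸ ⟨D, by rw [hq]; ring⟩) ha
    have hrad : (radical (p * -q * -(p - q))).natDegree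
        ≤ W.natDegree + F.natDegree + (p - q).natDegree := by
      have e1 : p * -q * -(p - q) = (p * q) * (p - q) := by ring
      rw [e1]
      have hd1 : radical ((p * q) * (p - q)) ∣ (radical p * radical q) * radical (p - q) :=
        radical_mul_dvd.trans (mul_dvd_mul_right radical_mul_dvd _)
      have hne : (radical p * radical q) * radical (p - q) ≠ 0 :=
        mul_ne_zero (mul_ne_zero radical_ne_zero radical_ne_zero) radical_ne_zero
      refine (natDegree_le_of_dvd hd1 hne).trans ?_
      rw [natDegree_mul (mul_ne_zero radical_ne_zero radical_ne_zero) radical_ne_zero,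
        natDegree_mul radical_ne_zero radical_ne_zero]
      have := natDegree_radical_le (a := p - q)
      omega
    omega
  · -- all constant: impossible
    exfalso
    have hp1 : p.natDegree = 0 := natDegree_eq_zero_of_derivative_eq_zero h1
    have hr1 : (p - q).natDegree = 0 := by
      have : (-(p - q)).natDegree = 0 := natDegree_eq_zero_of_derivative_eq_zero h3
      rwa [natDegree_neg] at this
    rw [hp, natDegree_mul hD0 hp0, hr, natDegree_mul hD0 hr0] at hdeg
    omega

/-- Equal exponents: the elementary estimate. -/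
theorem same_powers {W F R : K[X]} {c a : K} {g : ℕ} (hc : c ≠ 0) (ha : a ≠ 0)
    (hg : 2 ≤ g) (hW : W ≠ 0) (hF : F ≠ 0) (hR : R ≠ 0) (h : C c * W ^ g - C a * F ^ g = R)
    (hdeg : R.natDegree < (C c * W ^ g).natDegree) :
    (g - 1) * W.natDegree ≤ R.natDegree := by
  have hP0 : C c * W ^ g ≠ 0 := mul_ne_zero (C_ne_zero.2 hc) (pow_ne_zero _ hW)
  have hQ0 : C a * F ^ g ≠ 0 := mul_ne_zero (C_ne_zero.2 ha) (pow_ne_zero _ hF)
  have hPd : (C c * W ^ g).natDegree = g * W.natDegree := by
    rw [natDegree_C_mul hc, natDegree_pow]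
  have hQd : (C a * F ^ g).natDegree = g * F.natDegree := by
    rw [natDegree_C_mul ha, natDegree_pow]
  have hQP : C a * F ^ g = C c * W ^ g - R := by rw [← h]; ring
  have hdR : R.degree < (C c * W ^ g).degree := by
    rw [degree_eq_natDegree hR, degree_eq_natDegree hP0]; exact_mod_cast hdeg
  have hdeq : (C a * F ^ g).natDegree = (C c * W ^ g).natDegree := by
    apply natDegree_eq_natDegree
    rw [hQP, degree_sub_eq_left_of_degree_lt hdR]
  have hlc : (C a * F ^ g).leadingCoeff = (C c * W ^ g).leadingCoeff := by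
    rw [hQP, leadingCoeff_sub_of_degree_lt hdR]
  have hm : F.natDegree = W.natDegree := by
    rw [hPd, hQd] at hdeq
    exact Nat.eq_of_mul_eq_mul_left (by omega) hdeq
  rw [leadingCoeff_mul, leadingCoeff_mul, leadingCoeff_C, leadingCoeff_C, leadingCoeff_pow,
    leadingCoeff_pow] at hlc
  have hlF : F.leadingCoeff ≠ 0 := leadingCoeff_ne_zero.2 hF
  have hlW : W.leadingCoeff ≠ 0 := leadingCoeff_ne_zero.2 hW
  set ρ := W.leadingCoeff / F.leadingCoeff with hρ
  have hρ0 : ρ ≠ 0 := div_ne_zero hlW hlF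
  have haρ : a = c * ρ ^ g := by
    rw [hρ, div_pow]
    field_simp
    linear_combination hlc
  set F' := C ρ * F with hF'
  have hF'd : F'.natDegree = W.natDegree := by rw [hF', natDegree_C_mul hρ0, hm]
  have hF'l : F'.leadingCoeff = W.leadingCoeff := by
    rw [hF', leadingCoeff_mul, leadingCoeff_C, hρ]; field_simp
  have hRe : R = C c * ((∑ i ∈ Finset.range g, W ^ i * F' ^ (g - 1 - i)) * (W - F')) := by
    rw [geom_sum₂_mul, ← h, haρ, hF']
    rw [mul_pow, C_mul, C_pow]
    ring
  have hWF : W - F' ≠ 0 := by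
    intro h0; rw [h0, mul_zero, mul_zero] at hRe; exact hR hRe
  have hsum : (∑ i ∈ Finset.range g, W ^ i * F' ^ (g - 1 - i)).coeff ((g - 1) * W.natDegree)
      = (g : K) * W.leadingCoeff ^ (g - 1) := by
    rw [finset_sum_coeff]
    have : ∀ i ∈ Finset.range g, (W ^ i * F' ^ (g - 1 - i)).coeff ((g - 1) * W.natDegree)
        = W.leadingCoeff ^ (g - 1) := by
      intro i hi
      have hi' : i ≤ g - 1 := by have := Finset.mem_range.1 hi; omega
      have hd : (W ^ i * F' ^ (g - 1 - i)).natDegree = (g - 1) * W.natDegree := by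
        rw [natDegree_mul (pow_ne_zero _ hW)
          (pow_ne_zero _ (mul_ne_zero (C_ne_zero.2 hρ0) hF)), natDegree_pow, natDegree_pow, hF'd,
          ← add_mul]
        congr 1; omega
      rw [← hd, coeff_natDegree, leadingCoeff_mul, leadingCoeff_pow, leadingCoeff_pow, hF'l,
        ← pow_add]
      congr 1; omega
    rw [Finset.sum_congr rfl this, Finset.sum_const, Finset.card_range, nsmul_eq_mul]
  have hg0 : (g : K) ≠ 0 := by exact_mod_cast (by omega : g ≠ 0)
  have hS0 : (∑ i ∈ Finset.range g, W ^ i * F' ^ (g - 1 - i)) ≠ 0 := by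
    intro h0; rw [h0, coeff_zero] at hsum
    exact mul_ne_zero hg0 (pow_ne_zero _ hlW) hsum.symm
  have hSd : (g - 1) * W.natDegree
      ≤ (∑ i ∈ Finset.range g, W ^ i * F' ^ (g - 1 - i)).natDegree := by
    apply le_natDegree_of_ne_zero
    rw [hsum]
    exact mul_ne_zero hg0 (pow_ne_zero _ hlW)
  rw [hRe, natDegree_C_mul hc, natDegree_mul hS0 hWF]
  omega

/-- Rigidity in one variable. -/
theorem rigid_uni {W F R : K[X]} {c a : K} {α e : ℕ} (hc : c ≠ 0) (ha : a ≠ 0)
    (hα : 2 ≤ α) (he : 2 ≤ e) (hW : W ≠ 0) (hF : F ≠ 0)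
    (h : C c * W ^ α - C a * F ^ e = R) (hn : 1 ≤ (C a * F ^ e).natDegree)
    (hdeg : 6 * R.natDegree ≤ (C a * F ^ e).natDegree) : R = 0 := by
  classical
  by_contra hR
  have hP0 : C c * W ^ α ≠ 0 := mul_ne_zero (C_ne_zero.2 hc) (pow_ne_zero _ hW)
  have hQ0 : C a * F ^ e ≠ 0 := mul_ne_zero (C_ne_zero.2 ha) (pow_ne_zero _ hF)
  have hPQ : C c * W ^ α = C a * F ^ e + R := by rw [← h]; ring
  have hdR : R.degree < (C a * F ^ e).degree := by
    rw [degree_eq_natDegree hR, degree_eq_natDegree hQ0]
    have : R.natDegree < (C a * F ^ e).natDegree := by omega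
    exact_mod_cast this
  have hdeq : (C c * W ^ α).natDegree = (C a * F ^ e).natDegree := by
    apply natDegree_eq_natDegree
    rw [hPQ, degree_add_eq_left_of_degree_lt hdR]
  have hPd : (C c * W ^ α).natDegree = α * W.natDegree := by
    rw [natDegree_C_mul hc, natDegree_pow]
  have hQd : (C a * F ^ e).natDegree = e * F.natDegree := by
    rw [natDegree_C_mul ha, natDegree_pow]
  have hlt : R.natDegree < (C c * W ^ α).natDegree := by omega
  rcases eq_or_ne α e with hαe | hαe
  · subst hαe
    have h1 := same_powers hc ha hα hW hF hR h hlt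
    have h2 : α * W.natDegree ≤ 2 * ((α - 1) * W.natDegree) := by
      rw [← mul_assoc]
      exact Nat.mul_le_mul_right _ (by omega)
    omega
  · have h1 := abc_powers hc ha hW hF hR h hlt
    rcases Nat.lt_or_ge α e with h2 | h2
    · have h3 : 2 * W.natDegree ≤ α * W.natDegree := Nat.mul_le_mul_right _ hα
      have h4 : 3 * F.natDegree ≤ e * F.natDegree := Nat.mul_le_mul_right _ (by omega)
      omega
    · have h3 : 3 * W.natDegree ≤ α * W.natDegree := Nat.mul_le_mul_right _ (by omega)
      have h4 : 2 * F.natDegree ≤ e * F.natDegree := Nat.mul_le_mul_right _ he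
      omega

end Pool.Agent.Helper12_Tower
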